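import Pool.Agent.K2G.MAIN
import Pool.Agent.K2G.UNIT
import Pool.Agent.K2B.Reg
import Pool.Agent.K2B.WIND
import Pool.Agent.K2B.LIN
import Pool.Agent.K2B.PertB
import Pool.Agent.K2B.Phi

/-!
# `K₂` of a family of curves of genus 2, full rank over every real quadratic field

Let `k` be a number field with two different infinite places `v`, `w` (that is, `k` is neither `ℚ`
nor imaginary quadratic) and `t` a unit of `k` with `|t|_v ≥ 50` and `|t|_w ≤ 1/50`; there are
infinitely many such `t`. Let `C` be the curve `y² = (2 x - 1) A B`, `A = t x - (2 x - 1) (x - 1)`,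
`B = t x (2 x - 1) - (x - 1)`, of genus 2. The elements `{h, x - 1}`, `{h, 2 x - 1}`, `{g, x}`,
`{g, 2 x - 1}` of `K₂(k(C)) ⊗ ℚ`, with `h = (y - A)/(y + A)` and
`g = (y + (2 x - 1) A)/(y - (2 x - 1) A)`, have trivial tame symbol at every discrete valuation of
`k(C)`, they are linearly independent, and the determinant of their regulators along two loops over
`w` and two loops over `v` (anti-invariant under complex conjugation if the place is real) is not
zero. If `k` is real quadratic then `4 = g [k : ℚ]`, and the regulator is onto.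
-/

set_option autoImplicit false

open Polynomial NumberField

namespace Pool.Agent.Results.MP_0a9c3b_nt.GenusTwoK2

open Pool.Agent.BEK Pool.Agent.K2B Pool.Agent.K2C Pool.Agent.K2G

theorem result :
    ∀ (k : Type) [Field k] [NumberField k] (v w : InfinitePlace k), v ≠ w →
      (∀ N : ℝ, ∃ t : (𝓞 k)ˣ, N ≤ v ((t : 𝓞 k) : k) ∧ N * w ((t : 𝓞 k) : k) ≤ 1) ∧
      ∀ t : (𝓞 k)ˣ, 50 ≤ v ((t : 𝓞 k) : k) → 50 * w ((t : 𝓞 k) : k) ≤ 1 →
        Squarefree (quintic ((t : 𝓞 k) : k)) ∧ (quintic ((t : 𝓞 k) : k)).natDegree = 5 ∧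
        (∀ j, Unram (alpha t j)) ∧ LinearIndependent ℚ (alpha t) ∧
        ∃ γ : Fin 4 → Loop (FC t),
          Over (γ 0) w.embedding ∧ Over (γ 1) w.embedding ∧
          Over (γ 2) v.embedding ∧ Over (γ 3) v.embedding ∧
          (w.IsReal → Anti (γ 0) ∧ Anti (γ 1)) ∧ (v.IsReal → Anti (γ 2) ∧ Anti (γ 3)) ∧
          (regM γ (alpha t)).det ≠ 0 ∧ Spans γ := by
  have hD : Pool.Agent.BEK.Stmt_Dilog := dilog_proof (prim_proof li2_proof)
  have hReg := reg_proof
  intro k _ _ v w hvw
  refine ⟨Unit'.exists_unit k v w hvw, ?_⟩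
  intro t hv hw
  have hre : ∀ u : InfinitePlace k, u.IsReal → ∀ a, (u.embedding a).im = 0 := by
    intro u hu a
    have h := InfinitePlace.isReal_iff.1 hu
    have h2 := RingHom.congr_fun h a
    exact Complex.conj_eq_iff_im.1 h2
  obtain ⟨h1, h2, h3, h4, γ, o0, o1, o2, o3, c1, c2, hdet, hsp⟩ :=
    Main.main t phi_proof wind_proof hReg (lin_proof hReg hD) pertB_proof transc_proof fini_proof
      v.embedding w.embedding (by rw [InfinitePlace.norm_embedding_eq]; exact hv)
      (by rw [InfinitePlace.norm_embedding_eq]; linarith)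
  exact ⟨h1, h2, h3, h4, γ, o0, o1, o2, o3, fun h => c1 (hre w h), fun h => c2 (hre v h),
    hdet, hsp⟩

end Pool.Agent.Results.MP_0a9c3b_nt.GenusTwoK2
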