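import Pool.Agent.K2B.Final
import Pool.Agent.K2B.INTEG
import Pool.Agent.K2B.OPEN
import Pool.Agent.K2B.SQF
import Pool.Agent.K2B.GEOA
import Pool.Agent.K2B.REALC
import Pool.Agent.K2B.GEOB
import Pool.Agent.K2B.GEOC
import Pool.Agent.K2B.NEAR
import Pool.Agent.K2B.Phi
import Pool.Agent.K2B.TRANSC
import Pool.Agent.K2B.Eval
import Pool.Agent.K2B.GEN
import Pool.Agent.K2B.FLoop
import Pool.Agent.K2B.Reg
import Pool.Agent.K2B.REGMAP
import Pool.Agent.K2B.WIND
import Pool.Agent.K2B.LIN
import Pool.Agent.K2B.SELF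
import Pool.Agent.K2B.PertB
import Pool.Agent.K2B.EST
import Pool.Agent.K2B.Maxp
import Pool.Agent.K2B.ROWS

/-!
# `K₂` of the hyperelliptic curves `y + 1/y = ∏ (x - α_i)`

Let `k` be a number field, `α_0, …, α_g ∈ k` algebraic integers, `P = ∏ (x - α_i)` and
`C : y + 1/y = P(x)`, a curve with the affine model `s² = P(x)² - 4` (`s = y - 1/y`).
If for one embedding `σ` of `k` in `ℂ` the points `σ(α_i)` are separated (mutual distances at
least `3`; or real and at least `2`, `g ≥ 2`; or real and at least `1`, `g ≥ 5`), then `C` has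
genus `g`, the elements `ξ_j = {y, x - α_j}` of `K₂(k(C)) ⊗ ℚ` have trivial tame symbol at every
discrete valuation of `k(C)`, `ξ_1, …, ξ_g` are linearly independent, and there are `g` loops on
the curve over `ℂ` obtained from `σ` with nonzero regulator determinant.
-/

set_option autoImplicit false

open Polynomial

namespace Pool.Agent.Results.MP_0a9c3b_nt.HyperellipticK2

open Pool.Agent.BEK Pool.Agent.K2B

theorem result :
    ∀ (k : Type) [Field k] [NumberField k] (g : ℕ) (α : Fin (g + 1) → k),
      (∀ i, IsIntegral ℤ (α i)) → ∀ σ : k →+* ℂ, Separated (fun i => σ (α i)) →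
      Squarefree (poly α ^ 2 - 4) ∧ (poly α ^ 2 - 4).natDegree = 2 * g + 2 ∧
      (∀ j, Unram (xiQ α j)) ∧ LinearIndependent ℚ (fun j : Fin g => xiQ α j.succ) ∧
      ∃ γ : Fin g → Loop (CF α), (∀ l, OverC (γ l) σ) ∧
        ((∀ c, (σ c).im = 0) → ∀ l, Anti (γ l)) ∧
        (regMat γ fun j : Fin g => xiQ α j.succ).det ≠ 0 ∧ Span γ := by
  have hD : Pool.Agent.BEK.Stmt_Dilog := dilog_proof (prim_proof li2_proof)
  have hReg := reg_proof
  have hGen := gen_proof
  refine final integ_proof hGen ?_
  intro k _ _ g α hα σ hs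
  exact main integ_proof open_proof sqf_proof geoA_proof realc_proof geoB_proof geoc_proof
    near_proof phi_proof transc_proof (floop_proof eval_proof hGen) (regmap_proof hReg hD)
    (est_proof hReg wind_proof (lin_proof hReg hD) pertB_proof (self_proof hReg hD)) hGen
    maxp_proof rows_proof α hα σ hs

end Pool.Agent.Results.MP_0a9c3b_nt.HyperellipticK2
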