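import Pool.Agent.K2D.All
import Pool.Agent.K2D.INTEG3
import Pool.Agent.K2D.EVAL3
import Pool.Agent.K2D.GEN3
import Pool.Agent.K2D.FLOOP3
import Pool.Agent.K2D.XIREG3
import Pool.Agent.K2D.KER3
import Pool.Agent.K2D.SMOOTH3
import Pool.Agent.K2C.OPENW
import Pool.Agent.K2C.CRIT
import Pool.Agent.K2C.BSideA
import Pool.Agent.K2C.BSideB
import Pool.Agent.K2C.BSIDEC
import Pool.Agent.K2C.MASSA
import Pool.Agent.K2C.MASSC
import Pool.Agent.K2C.ASIDE
import Pool.Agent.K2C.BSide
import Pool.Agent.K2C.INV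
import Pool.Agent.K2C.QUO
import Pool.Agent.K2C.EST2
import Pool.Agent.K2C.MAX2
import Pool.Agent.K2C.Ker
import Pool.Agent.K2C.Rows2
import Pool.Agent.K2C.Fini
import Pool.Agent.K2B.GEOA
import Pool.Agent.K2B.REALC
import Pool.Agent.K2B.GEOB
import Pool.Agent.K2B.GEOC
import Pool.Agent.K2B.NEAR
import Pool.Agent.K2B.TRANSC
import Pool.Agent.K2B.Reg
import Pool.Agent.K2B.WIND
import Pool.Agent.K2B.LIN
import Pool.Agent.K2B.PertB
import Pool.Agent.K2B.ROWS

/-!
# `K₂` of smooth plane curves of every degree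

Let `k` be a number field and `α_0 = 0, α_1, …, α_{n+1}`, `λ ≠ 0` algebraic integers in `k`,
the `α_i` distinct. Let `C` be the plane curve `λ ∏_{i=0}^{n+1} (t - α_i s + α_i²) = 1` of degree
`n + 2` (the lines `ℓ_i = 0`, `ℓ_i = t - α_i s + α_i²`, are tangents of the parabola `s² = 4 t`).
If for one embedding `σ` of `k` in `ℂ` with `|σ(λ)| ≥ 1` the points `σ(α_i)` are separated (mutual
distances at least `3`; or real and at least `2`, at least three points; or real and at least `1`,
at least six points), then the projective closure of `C` is smooth (so its genus is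
`n (n + 1)/2`), the `n (n + 1)/2` elements
`η_ij = {α_j/(α_j - α_i) · ℓ_i/ℓ_0, α_i/(α_i - α_j) · ℓ_j/ℓ_0}`, `1 ≤ i < j ≤ n + 1`, of
`K₂(k(C)) ⊗ ℚ` have trivial tame symbol at every discrete valuation of `k(C)`, they are linearly
independent, and there are `n (n + 1)/2` loops on the curve over `ℂ` obtained from `σ` with nonzero
regulator determinant.
-/

set_option autoImplicit false

namespace Pool.Agent.Results.MP_0a9c3b_nt.PlaneK2

open Pool.Agent.BEK Pool.Agent.K2B Pool.Agent.K2C Pool.Agent.K2D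

theorem result :
    ∀ (k : Type) [Field k] [NumberField k] (n : ℕ) (c : Pl k n),
      (∀ i, IsIntegral ℤ (c.α i)) → IsIntegral ℤ c.lam →
      ∀ σ : k →+* ℂ, Separated (fun i => σ (c.α i)) → 1 ≤ ‖σ c.lam‖ →
      c.Smooth σ ∧ (∀ ij, Unram (c.eta ij)) ∧ LinearIndependent ℚ c.eta ∧
      ∃ γ : Pr n → Loop c.F, (∀ l, c.Over (γ l) σ) ∧
        ((∀ a, (σ a).im = 0) → ∀ l, Anti (γ l)) ∧
        (regM γ c.eta).det ≠ 0 ∧ Spans γ := by
  have hD : Stmt_Dilog := dilog_proof (prim_proof li2_proof)
  have hReg := reg_proof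
  have hGen := gen3_proof
  have hO := openw_proof
  have hMA := massA_proof
  have hMC := massC_proof
  have hLin := lin_proof hReg hD
  intro k _ _ n c hα hl σ hsα hL
  exact K2D.main integ3_proof hGen (floop3_proof eval3_proof hGen) transc_proof (inv_proof hO)
    (est2_proof hReg wind_proof hLin pertB_proof) (xireg3_proof hReg hLin)
    (crit_proof hO) (aSide_proof hMA hMC geoA_proof geoB_proof geoc_proof realc_proof)
    (bside_proof hMA hMC bSideA_proof bsideb_proof bSideC_proof) max2_proof ker_proof ker3_proof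
    rows2_proof fini_proof smooth3_proof c hα hl σ hsα hL

end Pool.Agent.Results.MP_0a9c3b_nt.PlaneK2
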