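import Pool.Agent.BEK.FinC
import Pool.Agent.BEK.KTwo
import Pool.Agent.BEK.Par
import Pool.Agent.BEK.TAB
import Pool.Agent.BEK.Inv
import Pool.Agent.BEK.Prod
import Pool.Agent.BEK.Step
import Pool.Agent.BEK.Aff
import Pool.Agent.BEK.UNR
import Pool.Agent.BEK.Mon
import Pool.Agent.BEK.Disc
import Pool.Agent.BEK.NICE
import Pool.Agent.BEK.CIRC
import Pool.Agent.BEK.PERT
import Pool.Agent.BEK.LINEX
import Pool.Agent.BEK.LINE
import Pool.Agent.BEK.Asym
import Pool.Agent.BEK.Trans
import Pool.Agent.BEK.FUNA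
import Pool.Agent.BEK.FUNG
import Pool.Agent.BEK.FUNF
import Pool.Agent.BEK.Irr
import Pool.Agent.BEK.Roots
import Pool.Agent.BEK.Sep
import Pool.Agent.BEK.Units
import Pool.Agent.BEK.FIELD
import Pool.Agent.BEK.Det
import Pool.Agent.BEK.NonGal

set_option autoImplicit false

namespace Pool.Agent.Results.MP_0a9c3b_nt.SexticK2

open Pool.Agent.BEK

/-- For every `B` there are a totally real sextic number field `K`, not Galois over `ℚ`, an elliptic
curve `E` over `K` with irrational `j`-invariant, all of whose conjugates are larger than `B` in absolute value, and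
six elements `ξ j` of `K_2(K(E)) ⊗ ℚ`, unramified at every discrete valuation of `K(E)`, and
six loops `γ i` of generic points, one over every place of `K` and anti-invariant under complex
conjugation, such that the determinant of the regulators `(γ i).reg (ξ j)` does not vanish. -/
theorem result : ∀ B : ℝ, ∃ (K : Type) (_ : Field K) (_ : NumberField K)
    (E : WeierstrassCurve K) (_ : E.IsElliptic) (σ : Fin 6 → (K →+* ℝ))
    (γ : Fin 6 → Loop (FF E)) (ξ : Fin 6 → KQ (FF E)),
    Module.finrank ℚ K = 6 ∧ ¬ IsGalois ℚ K ∧ Function.Injective σ ∧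
    (∀ i, B < |σ i E.j|) ∧ (∀ q : ℚ, E.j ≠ (q : K)) ∧
    (∀ i, Over (γ i) (σ i)) ∧ (∀ i, Anti (γ i)) ∧ (∀ j, Unram (ξ j)) ∧
    (regM γ ξ).det ≠ 0 ∧ LinearIndependent ℚ ξ ∧ Onto γ := by
  have hPar : Stmt_Par := par_proof
  have hTab : Stmt_Tab := tab_proof hPar
  have hInv : Stmt_Inv := inv_proof hPar
  have hProd : Stmt_Prod := prod_proof
  have hStep : Stmt_Step := step_proof hPar
  have hAff : Stmt_Aff := aff_proof hPar hTab
  have hMon : Stmt_Mon := mon_proof hTab
  have hNice : Stmt_Nice := nice_proof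
  have hLine : Stmt_Line := line_proof hNice circ_proof pert_proof lineX_proof
  have hAsym : Stmt_Asym := asym_proof hInv hProd hStep hAff hMon hNice hLine
  have hField : Stmt_Field := field_proof irr_proof (roots_proof hPar hAff)
    (sep_proof hPar hTab) units_proof
  have hMain := final hPar hInv hProd hAff (unr_proof hPar hProd) disc_proof hAsym trans_proof
    fung_proof (funf_proof funa_proof fung_proof) hField det_proof
    (nonGal irr_proof)
  intro B
  obtain ⟨K, fK, nK, E, hE, σ, γ, ξ, h1, h0, h2, h3, h4, h5, h6, h7, h8⟩ := hMain B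
  exact ⟨K, fK, nK, E, hE, σ, γ, ξ, h1, h0, h2, h3, h4, h5, h6, h7, h8,
    independent γ ξ h8, spanning γ ξ h7 h8⟩

end Pool.Agent.Results.MP_0a9c3b_nt.SexticK2
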